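import Pool.Agent.helper36.BP.SpecD
import Pool.Agent.helper85.BVP.Tau

/-!
# bp:TDM
-/

set_option autoImplicit false

open Finset
open Pool.Agent.FI Pool.Agent.HK
open Pool.Agent.CH (nit rgh ll2)
open Pool.Agent.SK (tr0 Th)

noncomputable section

namespace Pool.Agent.BP

private def TDM_t (n : ℕ) : ℝ := (#n.divisors : ℝ)

private theorem TDM_t0 (n : ℕ) : 0 ≤ TDM_t n := Nat.cast_nonneg _

private theorem TDM_tm (m n : ℕ) : TDM_t (m * n) ≤ TDM_t m * TDM_t n := Pool.Agent.helper85.BVP.tau_mul_le m n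

private theorem TDM_nn (g : ℕ) (z : ℤ × ℤ) : nn (g * z.1, g * z.2) = g ^ 2 * nn z := by
  unfold nn N8
  have h : ((g : ℤ) * z.1) ^ 2 - 8 * ((g : ℤ) * z.2) ^ 2 = (g : ℤ) ^ 2 * (z.1 ^ 2 - 8 * z.2 ^ 2) := by ring
  show (((g : ℤ) * z.1) ^ 2 - 8 * ((g : ℤ) * z.2) ^ 2).natAbs = _
  rw [h, Int.natAbs_mul, Int.natAbs_pow, Int.natAbs_natCast]

open scoped Classical in
/-- the primitive elements with norm `n` -/
private theorem TDM_cn (hSIZ : SIZ_stmt) (hCN1 : CN1_stmt) (U n : ℕ) :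
    (#{z ∈ FF U | IsCoprime z.1 z.2 ∧ nn z = n} : ℝ) ≤ TDM_t n := by
  by_cases hn : Odd n
  · have h1 := hCN1 n hn
    have h2 : #{z ∈ FF U | IsCoprime z.1 z.2 ∧ nn z = n} ≤ #{z ∈ FF n | nn z = n ∧ IsCoprime z.1 z.2} := by
      refine card_le_card ?_
      intro z hz
      rw [mem_filter] at hz ⊢
      obtain ⟨h3, h4, h5⟩ := hz
      have hF : Fd z := by
        unfold FF at h3
        exact (mem_filter.1 h3).2.1
      have h6 := (hSIZ z hF).2.2.2.1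
      rw [h5] at h6
      exact ⟨h6, h5, h4⟩
    unfold TDM_t
    exact_mod_cast h2.trans h1
  · have h2 : ({z ∈ FF U | IsCoprime z.1 z.2 ∧ nn z = n} : Finset (ℤ × ℤ)) = ∅ := by
      rw [filter_eq_empty_iff]
      rintro z hz ⟨-, h5⟩
      have hF : Fd z := by
        unfold FF at hz
        exact (mem_filter.1 hz).2.1
      have h6 := (hSIZ z hF).2.2.2.2
      rw [h5] at h6
      apply hn
      rw [Nat.odd_iff]
      omega
    rw [h2, card_empty]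
    exact_mod_cast TDM_t0 n

open scoped Classical in
/-- the inner sum -/
private theorem TDM_in (hSIZ : SIZ_stmt) (hCN1 : CN1_stmt) (hTAM : Pool.Agent.SK.TAM_stmt) (c U : ℕ) :
    ∑ z ∈ FF U with IsCoprime z.1 z.2, TDM_t (nn z) ^ c * √(1 / (nn z : ℝ)) ≤
      √(U : ℝ) * (1 + Real.log U) ^ (2 ^ (2 * (c + 1)) + 1) := by
  have hmaps : ∀ z ∈ ({z ∈ FF U | IsCoprime z.1 z.2} : Finset (ℤ × ℤ)), nn z ∈ Ioc 0 U := by
    intro z hz
    have h1 := (mem_filter.1 hz).1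
    have h2 : Fd z ∧ nn z ≤ U := by
      unfold FF at h1
      exact (mem_filter.1 h1).2
    rw [mem_Ioc]
    exact ⟨(hSIZ z h2.1).2.2.1, h2.2⟩
  rw [← sum_fiberwise_of_maps_to hmaps]
  have h1 : ∀ n ∈ Ioc 0 U, ∑ z ∈ ({z ∈ FF U | IsCoprime z.1 z.2} : Finset (ℤ × ℤ)) with nn z = n,
      TDM_t (nn z) ^ c * √(1 / (nn z : ℝ)) ≤ TDM_t n ^ (c + 1) * √(1 / (n : ℝ)) := by
    intro n _
    have h2 : ∑ z ∈ ({z ∈ FF U | IsCoprime z.1 z.2} : Finset (ℤ × ℤ)) with nn z = n,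
        TDM_t (nn z) ^ c * √(1 / (nn z : ℝ)) =
        ∑ z ∈ ({z ∈ FF U | IsCoprime z.1 z.2} : Finset (ℤ × ℤ)) with nn z = n, TDM_t n ^ c * √(1 / (n : ℝ)) := by
      refine sum_congr rfl fun z hz => ?_
      rw [(mem_filter.1 hz).2]
    rw [h2, sum_const, nsmul_eq_mul, filter_filter, pow_succ]
    have h3 := TDM_cn hSIZ hCN1 U n
    calc (#{z ∈ FF U | IsCoprime z.1 z.2 ∧ nn z = n} : ℝ) * (TDM_t n ^ c * √(1 / (n : ℝ))) ≤
          TDM_t n * (TDM_t n ^ c * √(1 / (n : ℝ))) :=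
          mul_le_mul_of_nonneg_right h3 (mul_nonneg (pow_nonneg (TDM_t0 n) c) (Real.sqrt_nonneg _))
      _ = TDM_t n ^ c * TDM_t n * √(1 / (n : ℝ)) := by ring
  refine (sum_le_sum h1).trans ?_
  have h4 : (∑ n ∈ Ioc 0 U, TDM_t n ^ (c + 1) * √(1 / (n : ℝ))) ^ 2 ≤
      (∑ n ∈ Ioc 0 U, (TDM_t n ^ (c + 1)) ^ 2) * ∑ n ∈ Ioc 0 U, (√(1 / (n : ℝ))) ^ 2 :=
    sum_mul_sq_le_sq_mul_sq _ _ _
  have h5 : ∑ n ∈ Ioc 0 U, (TDM_t n ^ (c + 1)) ^ 2 ≤ U * (1 + Real.log U) ^ (2 ^ (2 * (c + 1))) := by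
    have h6 := (hTAM (2 * (c + 1)) U).1
    refine le_trans (le_of_eq ?_) h6
    refine sum_congr rfl fun n _ => ?_
    rw [← pow_mul, mul_comm (c + 1) 2]
    rfl
  have h7 : ∑ n ∈ Ioc 0 U, (√(1 / (n : ℝ))) ^ 2 ≤ 1 + Real.log U := by
    refine le_trans (le_of_eq ?_) (Pool.Agent.helper85.BVP.harm_le U)
    refine sum_congr rfl fun n _ => ?_
    rw [Real.sq_sqrt (by positivity)]
  have hL : 0 ≤ Real.log U := Real.log_natCast_nonneg U
  have hL1 : 1 ≤ 1 + Real.log U := by linarith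
  refine abs_le_of_sq_le_sq' ?_ (by positivity) |>.2
  refine h4.trans ?_
  rw [mul_pow, Real.sq_sqrt (Nat.cast_nonneg _), ← pow_mul]
  calc (∑ n ∈ Ioc 0 U, (TDM_t n ^ (c + 1)) ^ 2) * ∑ n ∈ Ioc 0 U, (√(1 / (n : ℝ))) ^ 2 ≤
        U * (1 + Real.log U) ^ (2 ^ (2 * (c + 1))) * (1 + Real.log U) :=
        mul_le_mul h5 h7 (sum_nonneg fun _ _ => sq_nonneg _) (by positivity)
    _ = U * (1 + Real.log U) ^ (2 ^ (2 * (c + 1)) + 1) := by rw [pow_succ, mul_assoc]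
    _ ≤ U * (1 + Real.log U) ^ ((2 ^ (2 * (c + 1)) + 1) * 2) := by
        refine mul_le_mul_of_nonneg_left (pow_le_pow_right₀ hL1 ?_) (Nat.cast_nonneg _)
        omega

open scoped Classical in
/-- the elements with greatest common divisor `g` -/
private theorem TDM_g (hSIZ : SIZ_stmt) (c M g : ℕ) (hg : 1 ≤ g) :
    ∑ z ∈ FF M with Int.gcd z.1 z.2 = g, TDM_t (nn z) ^ c * √(M * (Int.gcd z.1 z.2 : ℝ) ^ 2 / nn z) ≤
      √(M : ℝ) * TDM_t g ^ (2 * c) * ∑ z ∈ FF (M / g ^ 2) with IsCoprime z.1 z.2, TDM_t (nn z) ^ c * √(1 / (nn z : ℝ)) := by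
  have hg0 : (0 : ℝ) < g := by exact_mod_cast hg
  have hgz : (g : ℤ) ≠ 0 := by exact_mod_cast (by omega : g ≠ 0)
  set P : Finset (ℤ × ℤ) := {z ∈ FF (M / g ^ 2) | IsCoprime z.1 z.2} with hP
  set f : ℤ × ℤ → ℤ × ℤ := fun z => ((g : ℤ) * z.1, (g : ℤ) * z.2) with hf
  have hinj : Set.InjOn f P := by
    intro z _ w _ h
    have h1 := congrArg Prod.fst h
    have h2 := congrArg Prod.snd h
    simp only [hf] at h1 h2
    exact Prod.ext (mul_left_cancel₀ hgz h1) (mul_left_cancel₀ hgz h2)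
  have hsub : ({z ∈ FF M | Int.gcd z.1 z.2 = g} : Finset (ℤ × ℤ)) ⊆ P.image f := by
    intro z hz
    obtain ⟨hz1, hz2⟩ := mem_filter.1 hz
    have hF : Fd z ∧ nn z ≤ M := by
      unfold FF at hz1
      exact (mem_filter.1 hz1).2
    obtain ⟨a, ha⟩ : (g : ℤ) ∣ z.1 := by
      rw [← hz2]
      exact Int.gcd_dvd_left _ _
    obtain ⟨b, hb⟩ : (g : ℤ) ∣ z.2 := by
      rw [← hz2]
      exact Int.gcd_dvd_right _ _
    have hzz : z = f (a, b) := Prod.ext ha hb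
    refine mem_image.2 ⟨(a, b), ?_, hzz.symm⟩
    have hcop : Int.gcd a b = 1 := by
      have h1 : Int.gcd z.1 z.2 = g * Int.gcd a b := by
        rw [ha, hb, Int.gcd_mul_left, Int.natAbs_natCast]
      rw [hz2] at h1
      have h2 : g * 1 = g * Int.gcd a b := by rw [mul_one]; exact h1
      exact (Nat.eq_of_mul_eq_mul_left (by omega) h2).symm
    have hFd : Fd (a, b) := by
      obtain ⟨h1, h2⟩ := hF.1
      have hgpos : (0 : ℤ) < g := by exact_mod_cast hg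
      refine ⟨?_, ?_⟩
      · show a % 2 = 1
        by_contra h3
        have h4 : a % 2 = 0 := by omega
        have h5 : (2 : ℤ) ∣ a := Int.dvd_of_emod_eq_zero h4
        have h6 : (2 : ℤ) ∣ z.1 := by
          rw [ha]
          exact Dvd.dvd.mul_left h5 _
        omega
      · rw [ha, hb, abs_mul, abs_mul, abs_of_pos hgpos] at h2
        rcases h2 with h2 | h2
        · left
          show 4 * |b| < a
          have : (g : ℤ) * (4 * |b|) < g * a := by linarith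
          exact lt_of_mul_lt_mul_left this hgpos.le
        · right
          show |a| < 2 * b
          have : (g : ℤ) * |a| < g * (2 * b) := by linarith
          exact lt_of_mul_lt_mul_left this hgpos.le
    have hnn : nn z = g ^ 2 * nn (a, b) := by
      rw [hzz]
      exact TDM_nn g (a, b)
    have hle : nn (a, b) ≤ M / g ^ 2 := by
      rw [Nat.le_div_iff_mul_le (by positivity), mul_comm, ← hnn]
      exact hF.2
    have h7 := hSIZ (a, b) hFd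
    refine mem_filter.2 ⟨?_, Int.isCoprime_iff_gcd_eq_one.2 hcop⟩
    have h8 : (a, b) ∈ FF (nn (a, b)) := h7.2.2.2.1
    unfold FF at h8 ⊢
    obtain ⟨h9, -, -⟩ := mem_filter.1 h8
    refine mem_filter.2 ⟨?_, hFd, hle⟩
    obtain ⟨h10, h11⟩ := mem_product.1 h9
    rw [mem_Icc] at h10 h11
    have hle' : ((nn (a, b) : ℕ) : ℤ) ≤ ((M / g ^ 2 : ℕ) : ℤ) := by exact_mod_cast hle
    refine mem_product.2 ⟨mem_Icc.2 ⟨?_, ?_⟩, mem_Icc.2 ⟨?_, ?_⟩⟩ <;> linarith [h10.1, h10.2, h11.1, h11.2]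
  have hnonneg : ∀ z : ℤ × ℤ, 0 ≤ TDM_t (nn z) ^ c * √(M * (Int.gcd z.1 z.2 : ℝ) ^ 2 / nn z) := fun z =>
    mul_nonneg (pow_nonneg (TDM_t0 _) _) (Real.sqrt_nonneg _)
  refine (sum_le_sum_of_subset_of_nonneg hsub fun z _ _ => hnonneg z).trans ?_
  rw [sum_image hinj, mul_sum]
  refine sum_le_sum fun z hz => ?_
  obtain ⟨hz1, hz2⟩ := mem_filter.1 hz
  have e1 : nn (f z) = g ^ 2 * nn z := TDM_nn g z
  have e2 : Int.gcd (f z).1 (f z).2 = g := by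
    simp only [hf]
    rw [Int.gcd_mul_left, Int.natAbs_natCast, Int.isCoprime_iff_gcd_eq_one.1 hz2, mul_one]
  rw [e1, e2]
  have e3 : (M : ℝ) * (g : ℝ) ^ 2 / ((g ^ 2 * nn z : ℕ) : ℝ) = M * (1 / (nn z : ℝ)) := by
    push_cast
    rw [mul_comm (M : ℝ) ((g : ℝ) ^ 2), mul_div_mul_left _ _ (by positivity), div_eq_mul_one_div]
  rw [e3, Real.sqrt_mul (Nat.cast_nonneg _)]
  have e4 : TDM_t (g ^ 2 * nn z) ^ c ≤ TDM_t g ^ (2 * c) * TDM_t (nn z) ^ c := by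
    rw [pow_mul, ← mul_pow]
    refine pow_le_pow_left₀ (TDM_t0 _) ?_ c
    refine (TDM_tm _ _).trans (mul_le_mul_of_nonneg_right ?_ (TDM_t0 _))
    rw [sq, sq]
    exact TDM_tm g g
  calc TDM_t (g ^ 2 * nn z) ^ c * (√(M : ℝ) * √(1 / (nn z : ℝ))) ≤
        TDM_t g ^ (2 * c) * TDM_t (nn z) ^ c * (√(M : ℝ) * √(1 / (nn z : ℝ))) :=
        mul_le_mul_of_nonneg_right e4 (by positivity)
    _ = √(M : ℝ) * TDM_t g ^ (2 * c) * (TDM_t (nn z) ^ c * √(1 / (nn z : ℝ))) := by ring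

theorem TDM (hSIZ : SIZ_stmt) (hCN1 : CN1_stmt) (hTAM : SK.TAM_stmt) : TDM_stmt := by
  classical
  intro c
  refine ⟨1, 2 ^ (2 * (c + 1)) + 1 + 2 ^ (2 * c), one_pos, fun M hM => ?_⟩
  have hL : 0 ≤ Real.log M := Real.log_natCast_nonneg M
  have hM0 : (0 : ℝ) < M := by exact_mod_cast hM
  set E := 2 ^ (2 * (c + 1)) + 1 with hE
  have hmaps : ∀ z ∈ FF M, Int.gcd z.1 z.2 ∈ Ioc 0 M := by
    intro z hz
    have hF : Fd z ∧ nn z ≤ M := by
      unfold FF at hz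
      exact (mem_filter.1 hz).2
    have h1 : z.1 ≠ 0 := by
      have := hF.1.1
      intro h
      rw [h] at this
      norm_num at this
    have h2 : 0 < Int.gcd z.1 z.2 := Int.gcd_pos_of_ne_zero_left _ h1
    rw [mem_Ioc]
    refine ⟨h2, ?_⟩
    have h3 : Int.gcd z.1 z.2 ∣ nn z := by
      unfold nn N8
      rw [← Int.natCast_dvd]
      refine dvd_sub ?_ ?_
      · exact Dvd.dvd.pow (Int.gcd_dvd_left _ _) (by norm_num)
      · exact Dvd.dvd.mul_left (Dvd.dvd.pow (Int.gcd_dvd_right _ _) (by norm_num)) _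
    exact (Nat.le_of_dvd (hSIZ z hF.1).2.2.1 h3).trans hF.2
  have h0 : ∑ z ∈ FF M, (#(nn z).divisors : ℝ) ^ c * √(M * (Int.gcd z.1 z.2 : ℝ) ^ 2 / nn z) =
      ∑ g ∈ Ioc 0 M, ∑ z ∈ FF M with Int.gcd z.1 z.2 = g, TDM_t (nn z) ^ c * √(M * (Int.gcd z.1 z.2 : ℝ) ^ 2 / nn z) :=
    (sum_fiberwise_of_maps_to hmaps _).symm
  rw [h0]
  have h1 : ∀ g ∈ Ioc 0 M, ∑ z ∈ FF M with Int.gcd z.1 z.2 = g, TDM_t (nn z) ^ c * √(M * (Int.gcd z.1 z.2 : ℝ) ^ 2 / nn z) ≤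
      M * (1 + Real.log M) ^ E * (TDM_t g ^ (2 * c) / g) := by
    intro g hg
    rw [mem_Ioc] at hg
    have hg0 : (0 : ℝ) < g := by exact_mod_cast hg.1
    refine (TDM_g hSIZ c M g hg.1).trans ?_
    have h2 := TDM_in hSIZ hCN1 hTAM c (M / g ^ 2)
    have h3 : √((M / g ^ 2 : ℕ) : ℝ) ≤ √(M : ℝ) / g := by
      rw [Real.sqrt_le_iff]
      refine ⟨by positivity, ?_⟩
      rw [div_pow, Real.sq_sqrt hM0.le]
      have := Nat.cast_div_le (α := ℝ) (m := M) (n := g ^ 2)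
      push_cast at this
      exact this
    have h4 : 1 + Real.log ((M / g ^ 2 : ℕ) : ℝ) ≤ 1 + Real.log M := by
      have := Pool.Agent.helper85.BVP.log_nat_le (Nat.div_le_self M (g ^ 2))
      linarith
    have h5 : 0 ≤ Real.log ((M / g ^ 2 : ℕ) : ℝ) := Real.log_natCast_nonneg _
    have h6 : √((M / g ^ 2 : ℕ) : ℝ) * (1 + Real.log ((M / g ^ 2 : ℕ) : ℝ)) ^ E ≤
        √(M : ℝ) / g * (1 + Real.log M) ^ E :=
      mul_le_mul h3 (pow_le_pow_left₀ (by linarith) h4 E) (by positivity) (by positivity)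
    calc √(M : ℝ) * TDM_t g ^ (2 * c) * ∑ z ∈ FF (M / g ^ 2) with IsCoprime z.1 z.2, TDM_t (nn z) ^ c * √(1 / (nn z : ℝ)) ≤
          √(M : ℝ) * TDM_t g ^ (2 * c) * (√(M : ℝ) / g * (1 + Real.log M) ^ E) :=
          mul_le_mul_of_nonneg_left (h2.trans h6) (mul_nonneg (Real.sqrt_nonneg _) (pow_nonneg (TDM_t0 _) _))
      _ = (√(M : ℝ) * √(M : ℝ)) * (1 + Real.log M) ^ E * (TDM_t g ^ (2 * c) / g) := by ring
      _ = M * (1 + Real.log M) ^ E * (TDM_t g ^ (2 * c) / g) := by rw [Real.mul_self_sqrt hM0.le]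
  refine (sum_le_sum h1).trans ?_
  rw [← mul_sum]
  have h7 := (hTAM (2 * c) M).2
  calc M * (1 + Real.log M) ^ E * ∑ g ∈ Ioc 0 M, TDM_t g ^ (2 * c) / g ≤
        M * (1 + Real.log M) ^ E * (1 + Real.log M) ^ (2 ^ (2 * c)) :=
        mul_le_mul_of_nonneg_left h7 (by positivity)
    _ = 1 * M * (1 + Real.log M) ^ (E + 2 ^ (2 * c)) := by
        rw [pow_add]
        ring

end Pool.Agent.BP
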